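import Mathlib

namespace Pool.Agent.H.MP_f2f7de_al

open Filter Topology

theorem atan_bd (s : ℝ) : 0 < 2 + Real.arctan s ∧ 2 + Real.arctan s ≤ 4 := by
  have h1 := Real.arctan_lt_pi_div_two s
  have h2 := Real.neg_pi_div_two_lt_arctan s
  have h3 := Real.pi_lt_four
  constructor <;> linarith

theorem summ_bd {φ c : ℕ → ℝ} (h : Summable φ) (hc : ∀ n, 0 < c n ∧ c n ≤ 4) :
    Summable (fun n => c n * φ n) := by
  refine Summable.of_norm_bounded (h.norm.mul_left 4) (fun n => ?_)
  rw [norm_mul, Real.norm_of_nonneg (hc n).1.le]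
  exact mul_le_mul_of_nonneg_right (hc n).2 (norm_nonneg _)

theorem one_step (A : Set (ℕ → ℝ)) (hA : A.Countable) (h0 : ∀ φ ∈ A, φ ≠ 0)
    (hs : ∀ φ ∈ A, Summable φ) :
    ∃ c : ℕ → ℝ, (∀ n, 0 < c n ∧ c n ≤ 4) ∧ ∀ φ ∈ A, ∑' n, c n * φ n ≠ 0 := by
  classical
  let U : (ℕ → ℝ) → Set (ℕ → ℝ) := fun φ => {s | ∑' n, (2 + Real.arctan (s n)) * φ n ≠ 0}
  have ho : ∀ φ ∈ A, IsOpen (U φ) := by
    intro φ hφ
    refine isOpen_ne_fun (continuous_tsum (u := fun n => 4 * ‖φ n‖) (fun n => ?_)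
      ((hs φ hφ).norm.mul_left 4) (fun n s => ?_)) continuous_const
    · exact (continuous_const.add (Real.continuous_arctan.comp (continuous_apply n))).mul
        continuous_const
    · rw [norm_mul, Real.norm_of_nonneg (atan_bd _).1.le]
      exact mul_le_mul_of_nonneg_right (atan_bd _).2 (norm_nonneg _)
  have hd : ∀ φ ∈ A, Dense (U φ) := by
    intro φ hφ s
    by_cases hsU : s ∈ U φ
    · exact subset_closure hsU
    obtain ⟨m, hm⟩ := Function.ne_iff.1 (h0 φ hφ)
    have hz : ∑' n, (2 + Real.arctan (s n)) * φ n = 0 := not_not.1 hsU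
    have ht : Tendsto (fun t => Function.update s m t) (𝓝[≠] (s m)) (𝓝 s) := by
      have : Continuous (fun t : ℝ => Function.update s m t) :=
        continuous_const.update m continuous_id
      have h2 := this.tendsto (s m)
      rw [Function.update_eq_self] at h2
      exact h2.mono_left nhdsWithin_le_nhds
    refine mem_closure_of_tendsto ht ?_
    filter_upwards [self_mem_nhdsWithin] with t ht'
    have e : (fun n => (2 + Real.arctan (Function.update s m t n)) * φ n) =
        fun n => (2 + Real.arctan (s n)) * φ n +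
          (if n = m then (Real.arctan t - Real.arctan (s m)) * φ m else 0) := by
      funext n
      by_cases h : n = m
      · subst h; simp; ring
      · simp [h]
    show ∑' n, (2 + Real.arctan (Function.update s m t n)) * φ n ≠ 0
    rw [e, Summable.tsum_add (summ_bd (hs φ hφ) (fun n => atan_bd _))
      (hasSum_ite_eq m _).summable, hz, tsum_ite_eq, zero_add]
    refine mul_ne_zero (sub_ne_zero.2 fun h => ht' (Real.arctan_injective h)) hm
  obtain ⟨s, hs'⟩ := (dense_biInter_of_isOpen ho hA hd).nonempty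
  refine ⟨fun n => 2 + Real.arctan (s n), fun n => atan_bd _, fun φ hφ => ?_⟩
  exact Set.mem_iInter₂.1 hs' φ hφ

theorem sepk (k : ℕ) : ∀ (W : Set (Submodule ℝ (ℕ → ℝ))), W.Countable →
    (∀ V ∈ W, FiniteDimensional ℝ V ∧ Module.finrank ℝ V ≤ k ∧ ∀ φ ∈ V, Summable φ) →
    ∃ C : Fin k → ℕ → ℝ, (∀ j n, 0 < C j n ∧ C j n ≤ 4) ∧
      ∀ V ∈ W, ∀ φ ∈ V, (∀ j, ∑' n, C j n * φ n = 0) → φ = 0 := by
  induction k with
  | zero =>
    intro W _ h
    refine ⟨Fin.elim0, fun j => j.elim0, fun V hV φ hφ _ => ?_⟩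
    obtain ⟨h1, h2, -⟩ := h V hV
    have : V = ⊥ := Submodule.finrank_eq_zero.1 (Nat.le_zero.1 h2)
    rwa [this, Submodule.mem_bot] at hφ
  | succ k ih =>
    intro W hW h
    have hch : ∀ V : Submodule ℝ (ℕ → ℝ), ∃ φ ∈ V, V ≠ ⊥ → φ ≠ 0 := by
      intro V
      by_cases hV : V = ⊥
      · exact ⟨0, V.zero_mem, fun h => absurd hV h⟩
      · obtain ⟨φ, h1, h2⟩ := (Submodule.ne_bot_iff V).1 hV
        exact ⟨φ, h1, fun _ => h2⟩
    choose p hp1 hp2 using hch
    obtain ⟨c, hc, hc2⟩ := one_step (p '' (W \ {⊥})) ((hW.mono Set.sdiff_subset).image _)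
      (by rintro _ ⟨V, hV, rfl⟩; exact hp2 V hV.2)
      (by rintro _ ⟨V, hV, rfl⟩; exact (h V hV.1).2.2 _ (hp1 V))
    let K : W → Submodule ℝ (ℕ → ℝ) := fun V =>
      { carrier := {φ | φ ∈ V.1 ∧ ∑' n, c n * φ n = 0}
        add_mem' := by
          rintro a b ⟨a1, a2⟩ ⟨b1, b2⟩
          refine ⟨V.1.add_mem a1 b1, ?_⟩
          have sa := summ_bd ((h V.1 V.2).2.2 a a1) hc
          have sb := summ_bd ((h V.1 V.2).2.2 b b1) hc
          simp only [Pi.add_apply, mul_add]
          rw [sa.tsum_add sb, a2, b2, add_zero]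
        zero_mem' := ⟨V.1.zero_mem, by simp⟩
        smul_mem' := by
          rintro r a ⟨a1, a2⟩
          refine ⟨V.1.smul_mem r a1, ?_⟩
          simp only [Pi.smul_apply, smul_eq_mul, mul_left_comm _ r]
          rw [tsum_mul_left, a2, mul_zero] }
    have hK : ∀ V : W, K V ≤ V.1 := fun V φ hφ => hφ.1
    have := hW.to_subtype
    obtain ⟨C, hC, hC2⟩ := ih (Set.range K) (Set.countable_range K) (by
      rintro _ ⟨V, rfl⟩
      obtain ⟨h1, h2, h3⟩ := h V.1 V.2
      refine ⟨Submodule.finiteDimensional_of_le (hK V), ?_, fun φ hφ => h3 φ hφ.1⟩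
      by_cases hV : V.1 = ⊥
      · have := Submodule.finrank_mono (hK V)
        rw [hV, finrank_bot] at this
        omega
      · have : K V < V.1 := by
          refine lt_of_le_of_ne (hK V) (fun e => ?_)
          have : p V.1 ∈ K V := by rw [e]; exact hp1 _
          exact hc2 _ ⟨V.1, ⟨V.2, hV⟩, rfl⟩ this.2
        have := Submodule.finrank_lt_finrank_of_lt this
        omega)
    refine ⟨Fin.cons c C, fun j => Fin.cases hc (fun j => hC j) j, fun V hV φ hφ hz => ?_⟩
    exact hC2 _ ⟨⟨V, hV⟩, rfl⟩ φ ⟨hφ, hz 0⟩ (fun j => hz j.succ)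

/-- Finitely many positive weight sequences, small against `w`, that separate all spans of at most
`k` members of a countable family. -/
theorem generic (k : ℕ) (A : Set (ℕ → ℝ)) (hA : A.Countable) (w : ℕ → ℝ) :
    ∃ C : Fin k → ℕ → ℝ, (∀ j n, 0 < C j n) ∧ (∀ j, Summable (fun n => C j n * w n)) ∧
      ∀ s : Finset (ℕ → ℝ), (s : Set (ℕ → ℝ)) ⊆ A → s.card ≤ k →
        ∀ φ ∈ Submodule.span ℝ (s : Set (ℕ → ℝ)), (∀ j, Summable (fun n => C j n * φ n)) ∧
          ((∀ j, ∑' n, C j n * φ n = 0) → φ = 0) := by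
  classical
  obtain ⟨f, hf⟩ := (hA.insert w).exists_eq_range (Set.insert_nonempty w A)
  let ε : ℕ → ℝ := fun n => (1 / 2) ^ n / (1 + ∑ m ∈ Finset.range (n + 1), |f m n|)
  have hden : ∀ n, 0 < 1 + ∑ m ∈ Finset.range (n + 1), |f m n| := fun n => by positivity
  have hε : ∀ n, 0 < ε n := fun n => div_pos (by positivity) (hden n)
  have hsum : ∀ m, Summable (fun n => ε n * f m n) := by
    intro m
    refine Summable.of_norm_bounded_eventually_nat summable_geometric_two ?_
    filter_upwards [eventually_ge_atTop m] with n hn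
    rw [norm_mul, Real.norm_of_nonneg (hε n).le, Real.norm_eq_abs]
    have : |f m n| ≤ 1 + ∑ m ∈ Finset.range (n + 1), |f m n| := by
      have := Finset.single_le_sum (f := fun m => |f m n|) (s := Finset.range (n + 1))
        (fun i _ => abs_nonneg _) (Finset.mem_range.2 (Nat.lt_succ_of_le hn))
      linarith
    calc ε n * |f m n| ≤ ε n * (1 + ∑ m ∈ Finset.range (n + 1), |f m n|) :=
          mul_le_mul_of_nonneg_left this (hε n).le
      _ = (1 / 2) ^ n := div_mul_cancel₀ _ (hden n).ne'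
  let M : (ℕ → ℝ) →ₗ[ℝ] (ℕ → ℝ) :=
    { toFun := fun φ n => ε n * φ n
      map_add' := fun a b => by funext n; simp [mul_add]
      map_smul' := fun r a => by funext n; simp [mul_left_comm] }
  have hspan : ∀ s : Finset (ℕ → ℝ), (s : Set (ℕ → ℝ)) ⊆ A →
      ∀ φ ∈ Submodule.span ℝ (s : Set (ℕ → ℝ)), Summable (M φ) := by
    intro s hs φ hφ
    induction hφ using Submodule.span_induction with
    | mem x hx =>
      have : x ∈ Set.range f := hf ▸ Set.mem_insert_of_mem _ (hs hx)
      obtain ⟨m, rfl⟩ := this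
      exact hsum m
    | zero => rw [map_zero]; exact summable_zero
    | add x y _ _ hx hy => rw [map_add]; exact hx.add hy
    | smul r x _ hx => rw [map_smul]; exact hx.const_smul r
  let W : Set (Submodule ℝ (ℕ → ℝ)) :=
    (fun s : Finset (ℕ → ℝ) => (Submodule.span ℝ (s : Set (ℕ → ℝ))).map M) ''
      {s | (s : Set (ℕ → ℝ)) ⊆ A ∧ s.card ≤ k}
  have hW : W.Countable := by
    apply Set.Countable.image
    have := Set.countable_ofPred_finite_subset hA
    refine Set.Countable.mono ?_ (this.preimage_of_injOn (f := fun s : Finset (ℕ → ℝ) =>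
      (s : Set (ℕ → ℝ))) Finset.coe_injective.injOn)
    intro s hs
    exact ⟨s.finite_toSet, hs.1⟩
  obtain ⟨C, hC, hC2⟩ := sepk k W hW (by
    rintro _ ⟨s, ⟨h1, h2⟩, rfl⟩
    refine ⟨inferInstance, ?_, ?_⟩
    · exact (Submodule.finrank_map_le _ _).trans ((finrank_span_finset_le_card s).trans h2)
    · rintro _ ⟨φ, hφ, rfl⟩
      exact hspan s h1 φ hφ)
  refine ⟨fun j n => C j n * ε n, fun j n => mul_pos (hC j n).1 (hε n), fun j => ?_,
    fun s h1 h2 φ hφ => ⟨fun j => ?_, fun hz => ?_⟩⟩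
  · have : w ∈ Set.range f := hf ▸ Set.mem_insert _ _
    obtain ⟨m, rfl⟩ := this
    simpa only [mul_assoc] using summ_bd (hsum m) (hC j)
  · simp only [mul_assoc]
    exact summ_bd (hspan s h1 φ hφ) (hC j)
  · have := hC2 _ ⟨s, ⟨h1, h2⟩, rfl⟩ (M φ) ⟨φ, hφ, rfl⟩ (fun j => by
      have := hz j
      simp only [mul_assoc] at this
      exact this)
    funext n
    have h3 : ε n * φ n = 0 := congrFun this n
    exact (mul_eq_zero.1 h3).resolve_left (hε n).ne'

end Pool.Agent.H.MP_f2f7de_al
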