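import Pool.Agent.H.MP_93ccfe_al.Wall

namespace Pool.Agent.H.MP_f2f7de_al

open SimpleGraph Filter Topology Pool.Agent.H.MP_93ccfe_al

section Tr
variable {V : Type} {Γ : SimpleGraph V} (hT : Γ.IsTree)

noncomputable def pth (u v : V) : Γ.Walk u v := (hT.existsUnique_path u v).choose

theorem pth_isPath (u v : V) : (pth hT u v).IsPath := (hT.existsUnique_path u v).choose_spec.1

theorem pth_eq {u v : V} (p : Γ.Walk u v) (hp : p.IsPath) : p = pth hT u v :=
  (hT.existsUnique_path u v).choose_spec.2 p hp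

open Classical in
/-- edges of the geodesic -/
noncomputable def E (u v : V) : Finset (Sym2 V) := (pth hT u v).edges.toFinset

theorem mem_E {u v : V} {e : Sym2 V} : e ∈ E hT u v ↔ e ∈ (pth hT u v).edges := by
  unfold E; simp

theorem E_edge {u v : V} {e : Sym2 V} (h : e ∈ E hT u v) : e ∈ Γ.edgeSet :=
  (pth hT u v).edges_subset_edgeSet ((mem_E hT).1 h)

theorem E_self (u : V) (e : Sym2 V) : e ∉ E hT u u := by
  rw [mem_E, ← pth_eq hT Walk.nil Walk.IsPath.nil]; simp

theorem E_adj {u v : V} (h : Γ.Adj u v) (e : Sym2 V) : e ∈ E hT u v ↔ e = s(u, v) := by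
  rw [mem_E, ← pth_eq hT h.toWalk (by simp [Adj.toWalk, h.ne])]; simp [Adj.toWalk]

theorem E_first {u v : V} (h : u ≠ v) : ∃ w, Γ.Adj u w ∧ s(u, w) ∈ E hT u v := by
  have : ∀ p : Γ.Walk u v, ∃ w, Γ.Adj u w ∧ s(u, w) ∈ p.edges := by
    intro p
    cases p with
    | nil => exact absurd rfl h
    | cons h p => exact ⟨_, h, by simp⟩
  obtain ⟨w, h1, h2⟩ := this (pth hT u v)
  exact ⟨w, h1, (mem_E hT).2 h2⟩

def side (Γ : SimpleGraph V) (a b v : V) : Prop := (Γ.deleteEdges {s(a, b)}).Reachable v b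

include hT in
theorem side_step {a b u w : V} (hab : Γ.Adj a b) (h : Γ.Adj u w) :
    (side Γ a b u ↔ side Γ a b w) ↔ s(u, w) ≠ s(a, b) := by
  have h1 : side Γ a b b := Reachable.refl _
  have h2 : ¬ side Γ a b a := isAcyclic_iff_forall_adj_isBridge.1 hT.isAcyclic hab
  by_cases e : s(u, w) = s(a, b)
  · rcases Sym2.eq_iff.1 e with ⟨rfl, rfl⟩ | ⟨rfl, rfl⟩ <;> simp [h1, h2, e]
  · have : (Γ.deleteEdges {s(a, b)}).Adj u w := by simp [h, e]
    simp only [ne_eq, e, not_false_eq_true, iff_true]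
    exact ⟨fun r => this.symm.reachable.trans r, fun r => this.reachable.trans r⟩

include hT in
theorem side_walk {a b : V} (hab : Γ.Adj a b) {u v : V} (p : Γ.Walk u v) (hp : p.edges.Nodup) :
    s(a, b) ∈ p.edges ↔ ¬ (side Γ a b u ↔ side Γ a b v) := by
  induction p with
  | nil => simp
  | cons h p ih =>
    rw [Walk.edges_cons, List.nodup_cons] at hp
    have a1 := ih hp.2
    have a2 := side_step hT hab h
    have a3 := hp.1
    rw [Walk.edges_cons, List.mem_cons]
    grind

theorem E_tri (u v w : V) (e : Sym2 V) :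
    e ∈ E hT u w ↔ ¬ (e ∈ E hT u v ↔ e ∈ E hT v w) := by
  by_cases he : e ∈ Γ.edgeSet
  · induction e using Sym2.ind with
    | _ a b =>
      have f : ∀ x y, s(a, b) ∈ E hT x y ↔ ¬ (side Γ a b x ↔ side Γ a b y) := fun x y => by
        rw [mem_E]; exact side_walk hT he _ (pth_isPath hT x y).isTrail.edges_nodup
      rw [f, f, f]; grind
  · have f : ∀ x y, e ∉ E hT x y := fun x y h => he (E_edge hT h)
    simp [f]

theorem E_comm (u v : V) (e : Sym2 V) : e ∈ E hT u v ↔ e ∈ E hT v u := by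
  have a := E_tri hT u v u e
  have b := E_self hT u e
  grind

include hT in
theorem conn_ind {Z : V → Prop} (h : ∀ u w, Γ.Adj u w → Z u → Z w) {a : V} (ha : Z a) (v : V) :
    Z v := by
  obtain ⟨p⟩ := hT.connected.preconnected a v
  induction p with
  | nil => exact ha
  | cons h' p ih => exact ih (h _ _ h' ha)

theorem nest {e f : Sym2 V} {x y z w : V} (h1 : e ∉ E hT x y) (h2 : f ∈ E hT x y)
    (h3 : e ∈ E hT x z) (h4 : f ∉ E hT x z) (h5 : e ∈ E hT x w) (h6 : f ∈ E hT x w) : False := by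
  have he := E_edge hT h3
  have hf := E_edge hT h2
  have hef : e ≠ f := fun h => h1 (h ▸ h2)
  induction e using Sym2.ind with
  | _ a b =>
  induction f using Sym2.ind with
  | _ c d =>
  have key : ∀ v, (s(a, b) ∈ E hT x v ↔ s(a, b) ∈ E hT x c) ∨
      (s(c, d) ∈ E hT x v ↔ s(c, d) ∈ E hT x a) := by
    refine conn_ind hT (Z := fun v => (s(a, b) ∈ E hT x v ↔ s(a, b) ∈ E hT x c) ∨
      (s(c, d) ∈ E hT x v ↔ s(c, d) ∈ E hT x a)) (a := a) ?_ (Or.inr Iff.rfl)
    intro u v huv hu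
    have a1 := E_tri hT x u v s(a, b)
    have a2 := E_tri hT x u v s(c, d)
    have a3 := E_tri hT x a b s(c, d)
    have a4 := E_tri hT x c d s(a, b)
    rw [E_adj hT huv] at a1 a2
    rw [E_adj hT he] at a3
    rw [E_adj hT hf] at a4
    by_cases e1 : s(a, b) = s(u, v)
    · rcases Sym2.eq_iff.1 e1 with ⟨rfl, rfl⟩ | ⟨rfl, rfl⟩ <;> grind
    by_cases e2 : s(c, d) = s(u, v)
    · rcases Sym2.eq_iff.1 e2 with ⟨rfl, rfl⟩ | ⟨rfl, rfl⟩ <;> grind
    grind
  have k1 := key x
  have k2 := key y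
  have k3 := key z
  have k4 := key w
  have s1 := E_self hT x s(a, b)
  have s2 := E_self hT x s(c, d)
  grind

/-- weighted length of the geodesic -/
noncomputable def dl (ω : Sym2 V → ℝ) (u v : V) : ℝ := ∑ e ∈ E hT u v, ω e

theorem dl_path (ω : Sym2 V → ℝ) (u v : V) :
    (⨅ p : Γ.Path u v, (p.1.edges.map ω).sum) = dl hT ω u v := by
  classical
  have : ∀ p : Γ.Path u v, (p.1.edges.map ω).sum = dl hT ω u v := by
    intro p
    rw [pth_eq hT p.1 p.2]
    unfold dl E
    convert (List.sum_toFinset ω (pth_isPath hT u v).isTrail.edges_nodup).symm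
  have hne : Nonempty (Γ.Path u v) := ⟨⟨_, pth_isPath hT u v⟩⟩
  simp only [this, ciInf_const]

theorem dl_nonneg {ω : Sym2 V → ℝ} (h : ∀ e ∈ Γ.edgeSet, 0 ≤ ω e) (u v : V) : 0 ≤ dl hT ω u v :=
  Finset.sum_nonneg (fun e he => h e (E_edge hT he))

theorem dl_comm (ω : Sym2 V → ℝ) (u v : V) : dl hT ω u v = dl hT ω v u := by
  unfold dl
  rw [Finset.ext (E_comm hT u v)]

theorem dl_tri {ω : Sym2 V → ℝ} (h : ∀ e ∈ Γ.edgeSet, 0 ≤ ω e) (u v w : V) :
    dl hT ω u w ≤ dl hT ω u v + dl hT ω v w := by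
  classical
  unfold dl
  rw [← Finset.sum_union_inter]
  have a1 : ∑ e ∈ E hT u w, ω e ≤ ∑ e ∈ E hT u v ∪ E hT v w, ω e := by
    apply Finset.sum_le_sum_of_subset_of_nonneg
    · intro e he
      have := E_tri hT u v w e
      rw [Finset.mem_union]; grind
    · intro e he _
      rcases Finset.mem_union.1 he with he | he <;> exact h e (E_edge hT he)
  have a2 : 0 ≤ ∑ e ∈ E hT u v ∩ E hT v w, ω e :=
    Finset.sum_nonneg (fun e he => h e (E_edge hT (Finset.mem_inter.1 he).1))
  linarith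

theorem dl_add (ω : Sym2 V → ℝ) {u v w : V} (h : ∀ e ∈ E hT u v, e ∉ E hT v w) :
    dl hT ω u w = dl hT ω u v + dl hT ω v w := by
  classical
  unfold dl
  rw [← Finset.sum_union (Finset.disjoint_left.2 h)]
  congr 1
  ext e
  have := E_tri hT u v w e
  have := h e
  rw [Finset.mem_union]; grind

theorem z2_add (ω : Sym2 V → ZMod 2) (u v w : V) :
    ∑ e ∈ E hT u w, ω e = ∑ e ∈ E hT u v, ω e + ∑ e ∈ E hT v w, ω e := by
  classical
  have f : ∀ A : Finset (Sym2 V), A ⊆ E hT u v ∪ E hT v w →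
      ∑ e ∈ A, ω e = ∑ e ∈ E hT u v ∪ E hT v w, if e ∈ A then ω e else 0 := by
    intro A hA
    rw [Finset.sum_ite_mem, Finset.inter_eq_right.2 hA]
  rw [f (E hT u v) Finset.subset_union_left, f (E hT v w) Finset.subset_union_right,
    f (E hT u w), ← Finset.sum_add_distrib]
  · apply Finset.sum_congr rfl
    intro e _
    have := E_tri hT u v w e
    have z : ω e + ω e = 0 := CharTwo.add_self_eq_zero _
    by_cases h1 : e ∈ E hT u v <;> by_cases h2 : e ∈ E hT v w <;> simp [h1, h2, this, z]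
  · intro e he
    have := E_tri hT u v w e
    rw [Finset.mem_union]; grind

end Tr

section Act
variable {G V : Type} [Group G] [MulAction G V]

instance s2act : MulAction G (Sym2 V) where
  smul g e := e.map (g • ·)
  one_smul e := by
    show e.map _ = e
    simp
  mul_smul g h e := by
    show e.map _ = (e.map _).map _
    rw [Sym2.map_map]
    congr 1
    funext v
    exact mul_smul g h v

theorem s2_smul (g : G) (u v : V) : g • s(u, v) = s(g • u, g • v) := rfl

variable {Γ : SimpleGraph V} (hT : Γ.IsTree) (adj : ∀ (g : G) u v, Γ.Adj u v → Γ.Adj (g • u) (g • v))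

include adj

theorem edge_smul (g : G) {e : Sym2 V} (h : e ∈ Γ.edgeSet) : g • e ∈ Γ.edgeSet := by
  induction e using Sym2.ind with
  | _ a b => exact adj g a b h

theorem E_smul' (g : G) {u v : V} {e : Sym2 V} (h : e ∈ E hT u v) :
    g • e ∈ E hT (g • u) (g • v) := by
  let f : Γ →g Γ := ⟨fun v => g • v, fun h => adj g _ _ h⟩
  have := pth_eq hT ((pth hT u v).map f) ((pth_isPath hT u v).map (MulAction.injective g))
  rw [mem_E] at h ⊢
  change g • e ∈ (pth hT (f u) (f v)).edges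
  rw [← this, Walk.edges_map]
  exact List.mem_map_of_mem h

theorem E_smul (g : G) (u v : V) (e : Sym2 V) : g • e ∈ E hT (g • u) (g • v) ↔ e ∈ E hT u v :=
  ⟨fun h => by simpa using E_smul' hT adj g⁻¹ h, E_smul' hT adj g⟩

theorem sum_smul {M : Type} [AddCommMonoid M] {ω : Sym2 V → M}
    (hω : ∀ (g : G), ∀ e ∈ Γ.edgeSet, ω (g • e) = ω e) (g : G) (u v : V) :
    ∑ e ∈ E hT (g • u) (g • v), ω e = ∑ e ∈ E hT u v, ω e := by
  symm
  apply Finset.sum_bij (fun e _ => g • e)
  · intro e he; exact E_smul' hT adj g he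
  · intro a _ b _ h; exact MulAction.injective g h
  · intro b hb
    exact ⟨g⁻¹ • b, by rw [← E_smul hT adj g]; simpa using hb, by simp⟩
  · intro a ha; exact (hω g a (E_edge hT ha)).symm

variable [IsMulTorsionFree G] (free : ∀ (g : G) (v : V), g • v = v → g = 1)

include free

omit adj in
theorem edge_free {g : G} {e : Sym2 V} (h : g • e = e) : g = 1 := by
  induction e using Sym2.ind with
  | _ a b =>
    rw [s2_smul] at h
    rcases Sym2.eq_iff.1 h with ⟨h1, _⟩ | ⟨h1, h2⟩
    · exact free g a h1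
    · have : g ^ 2 = 1 := free _ a (by rw [pow_two, mul_smul, h1, h2])
      exact (pow_eq_one_iff_left (by norm_num)).1 this

theorem axis (g : G) : ∃ v : V, ∀ n : ℕ, ∀ e ∈ E hT v (g ^ n • v),
    e ∉ E hT (g ^ n • v) (g ^ (n + 1) • v) := by
  classical
  obtain ⟨x⟩ := hT.connected.nonempty
  by_cases hg : g = 1
  · subst hg
    exact ⟨x, fun n e he => by simpa using E_self hT x e⟩
  have : Nonempty V := ⟨x⟩
  obtain ⟨v, hv⟩ : ∃ v : V, ∀ y, (E hT v (g • v)).card ≤ (E hT y (g • y)).card :=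
    ⟨Function.argmin (fun y => (E hT y (g • y)).card),
      fun y => Function.argmin_le (fun y => (E hT y (g • y)).card) y⟩
  obtain ⟨w, hw, hw2⟩ := E_first hT (u := v) (v := g • v) (fun h => hg (free g v h.symm))
  have hne : ∀ n : ℕ, g ^ (n + 1) • s(v, w) ≠ g ^ n • s(v, w) := by
    intro n h
    rw [pow_succ, mul_smul] at h
    exact hg (edge_free free (MulAction.injective _ h))
  have h1 : g • s(v, w) ∉ E hT v (g • v) := by
    intro h
    have hsub : E hT w (g • w) ⊆ (E hT v (g • v)).erase s(v, w) := by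
      intro e he
      have a1 := E_tri hT w v (g • w) e
      have a2 := E_tri hT v (g • v) (g • w) e
      rw [E_adj hT hw.symm, Sym2.eq_swap] at a1
      rw [E_adj hT (adj g _ _ hw), ← s2_smul] at a2
      have a3 := hne 0
      simp only [zero_add, pow_one, pow_zero, one_smul] at a3
      rw [Finset.mem_erase]
      grind
    have := (Finset.card_le_card hsub).trans_lt (Finset.card_erase_lt_of_mem hw2)
    exact absurd (hv w) (not_le.2 this)
  have hstep : ∀ (n : ℕ) e, e ∈ E hT (g ^ n • v) (g ^ n • w) ↔ e = g ^ n • s(v, w) :=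
    fun n e => E_adj hT (adj _ _ _ hw) e
  have hin : ∀ n : ℕ, g ^ n • s(v, w) ∈ E hT (g ^ n • v) (g ^ (n + 1) • v) := by
    intro n
    rw [pow_succ, mul_smul]
    exact E_smul' hT adj _ hw2
  have hout : ∀ n : ℕ, g ^ (n + 1) • s(v, w) ∉ E hT (g ^ n • v) (g ^ (n + 1) • v) := by
    intro n
    rw [pow_succ, mul_smul, mul_smul, E_smul hT adj]
    exact h1
  have hdis : ∀ (y : V) (n : ℕ), g ^ n • s(v, w) ∉ E hT y (g ^ n • v) →
      ∀ e ∈ E hT y (g ^ n • v), e ∉ E hT (g ^ n • v) (g ^ (n + 1) • v) := by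
    intro y n hn e he he2
    have b1 := E_tri hT y (g ^ n • v) (g ^ (n + 1) • v) e
    have b2 := E_tri hT y (g ^ n • v) (g ^ (n + 1) • v) (g ^ n • s(v, w))
    have b3 := E_tri hT y (g ^ n • v) (g ^ n • w) e
    have b4 := E_tri hT y (g ^ n • v) (g ^ n • w) (g ^ n • s(v, w))
    rw [hstep] at b3 b4
    have b5 := hin n
    exact nest hT (x := y) (e := g ^ n • s(v, w)) (f := e) (y := g ^ n • v)
      (z := g ^ (n + 1) • v) (w := g ^ n • w) hn he (by grind) (by grind) (by grind) (by grind)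
  have hmain : ∀ n : ℕ, g ^ n • s(v, w) ∉ E hT v (g ^ n • v) := by
    intro n
    induction n with
    | zero => simpa using E_self hT v _
    | succ n ih =>
      intro h
      have c1 := hout n
      have c2 := hin n
      have c3 := hin (n + 1)
      have c4 := hdis (g ^ n • v) (n + 1) c1 _ c2
      have d1 := E_tri hT v (g ^ n • v) (g ^ (n + 1) • v) (g ^ (n + 1) • s(v, w))
      have d2 := E_tri hT (g ^ n • v) (g ^ (n + 1) • v) (g ^ (n + 1 + 1) • v) (g ^ n • s(v, w))
      have d3 := E_tri hT (g ^ n • v) (g ^ (n + 1) • v) (g ^ (n + 1 + 1) • v)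
        (g ^ (n + 1) • s(v, w))
      have d4 := E_comm hT v (g ^ n • v) (g ^ (n + 1) • s(v, w))
      have d5 := E_comm hT v (g ^ n • v) (g ^ n • s(v, w))
      exact nest hT (x := g ^ n • v) (e := g ^ n • s(v, w)) (f := g ^ (n + 1) • s(v, w)) (y := v)
        (z := g ^ (n + 1) • v) (w := g ^ (n + 1 + 1) • v) (by grind) (by grind) c2 c1 (by grind)
        (by grind)
  exact ⟨v, fun n => hdis v n (hmain n)⟩

theorem axis_dl (g : G) : ∃ v : V, ∀ ω : Sym2 V → ℝ,
    (∀ (g : G), ∀ e ∈ Γ.edgeSet, ω (g • e) = ω e) → (∀ e ∈ Γ.edgeSet, 0 ≤ ω e) →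
    (⨅ y, dl hT ω y (g • y)) = dl hT ω v (g • v) ∧
    ∀ x, Tendsto (fun n : ℕ => dl hT ω x (g ^ n • x) / n) atTop (𝓝 (dl hT ω v (g • v))) := by
  obtain ⟨v, hv⟩ := axis hT adj free g
  refine ⟨v, fun ω h1 h2 => ?_⟩
  have inv : ∀ (g : G) u v, dl hT ω (g • u) (g • v) = dl hT ω u v :=
    fun g u v => sum_smul hT adj h1 g u v
  have s0 : ∀ y, dl hT ω y y = 0 := fun y =>
    Finset.sum_eq_zero (fun e he => absurd he (E_self hT y e))
  have a1 : ∀ n : ℕ, dl hT ω v (g ^ n • v) = n * dl hT ω v (g • v) := by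
    intro n
    induction n with
    | zero => simp [s0]
    | succ n ih =>
      rw [dl_add hT ω (hv n), ih, pow_succ, mul_smul, inv]
      push_cast; ring
  have a2 : ∀ (y : V) (n : ℕ), dl hT ω y (g ^ n • y) ≤ n * dl hT ω y (g • y) := by
    intro y n
    induction n with
    | zero => simp [s0]
    | succ n ih =>
      have := dl_tri hT h2 y (g ^ n • y) (g ^ (n + 1) • y)
      rw [pow_succ g n, mul_smul, inv, ← mul_smul, ← pow_succ] at this
      push_cast; linarith
  have a3 : ∀ (x y : V) (k : G), dl hT ω x (k • x) ≤ dl hT ω y (k • y) + 2 * dl hT ω x y := by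
    intro x y k
    have b1 := dl_tri hT h2 x y (k • x)
    have b2 := dl_tri hT h2 y (k • y) (k • x)
    rw [inv, dl_comm hT ω y x] at b2
    linarith
  have a4 : ∀ x, Tendsto (fun n : ℕ => dl hT ω x (g ^ n • x) / n) atTop
      (𝓝 (dl hT ω v (g • v))) := by
    intro x
    have t := tendsto_const_div_atTop_nhds_zero_nat (2 * dl hT ω x v)
    have t1 := t.const_sub (dl hT ω v (g • v))
    have t2 := t.const_add (dl hT ω v (g • v))
    rw [sub_zero] at t1
    rw [add_zero] at t2
    refine tendsto_of_tendsto_of_tendsto_of_le_of_le' t1 t2 ?_ ?_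
    · filter_upwards [eventually_gt_atTop 0] with n hn
      have hn' : (0 : ℝ) < n := by exact_mod_cast hn
      have := a3 v x (g ^ n)
      rw [a1, dl_comm hT ω v x] at this
      rw [sub_le_iff_le_add, ← add_div, le_div_iff₀ hn']
      linarith
    · filter_upwards [eventually_gt_atTop 0] with n hn
      have hn' : (0 : ℝ) < n := by exact_mod_cast hn
      have := a3 x v (g ^ n)
      rw [a1] at this
      rw [← sub_le_iff_le_add, ← sub_div, div_le_iff₀ hn']
      linarith
  refine ⟨?_, a4⟩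
  have : Nonempty V := ⟨v⟩
  apply le_antisymm
  · exact ciInf_le ⟨0, by rintro _ ⟨y, rfl⟩; exact dl_nonneg hT h2 _ _⟩ v
  · refine le_ciInf (fun y => le_of_tendsto (a4 y) ?_)
    filter_upwards [eventually_gt_atTop 0] with n hn
    have hn' : (0 : ℝ) < n := by exact_mod_cast hn
    rw [div_le_iff₀ hn', mul_comm]
    exact a2 y n

end Act

end Pool.Agent.H.MP_f2f7de_al
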