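import Pool.Agent.H.MP_f2f7de_al.STree

namespace Pool.Agent.H.MP_f2f7de_al

open SimpleGraph Filter Topology Pool.Agent.H.MP_93ccfe_al

/-- asymptotic crossing number of an almost invariant set -/
noncomputable def fc {G : Type} [Group G] (χ : G → Prop) (g : G) : ℝ :=
  limUnder atTop (fun n : ℕ => ((sep χ 1 (g ^ n)).ncard : ℝ) / n)

def Fam (G : Type) [Group G] : Set (G → ℝ) := fc '' {χ | ∀ g, (sep χ 1 g).Finite}

theorem fam_countable (N : ℕ) : (Fam (FreeGroup (Fin N))).Countable := by
  apply Set.Countable.image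
  let B : Set (Prop × (Fin N → Set (FreeGroup (Fin N)))) :=
    Set.univ ×ˢ Set.univ.pi (fun _ => {s | s.Finite})
  have hB : B.Countable :=
    Set.countable_univ.prod (Set.countable_univ_pi (fun _ => Set.Countable.ofPred_finite))
  refine Set.MapsTo.countable_of_injOn
    (f := fun χ : FreeGroup (Fin N) → Prop => (χ 1, fun j => sep χ 1 (FreeGroup.of j))) ?_ ?_ hB
  · intro χ h
    exact ⟨trivial, fun j _ => h _⟩
  · intro χ _ ψ _ h
    have h1 : χ 1 = ψ 1 := congrArg Prod.fst h
    have h2 : ∀ j, sep χ 1 (FreeGroup.of j) = sep ψ 1 (FreeGroup.of j) :=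
      fun j => congrFun (congrArg Prod.snd h) j
    funext g
    have := const_of (Z := fun x => (χ x ↔ ψ x)) (fun x j => by
      have := Set.ext_iff.1 (h2 j) x
      simp only [sep, Set.mem_ofPred_eq, mul_one] at this
      grind) g 1
    rw [one_mul, h1] at this
    exact propext (this.2 Iff.rfl)

section
variable {G V : Type} [Group G] [MulAction G V] {Γ : SimpleGraph V}

abbrev Q (G X : Type) [Group G] [MulAction G X] := MulAction.orbitRel.Quotient G X

def qq (G : Type) {X : Type} [Group G] [MulAction G X] (e : X) : Q G X := Quotient.mk _ e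

theorem qq_eq {X : Type} [MulAction G X] {e f : X} : qq G e = qq G f ↔ ∃ g : G, g • f = e :=
  Quotient.eq

theorem qq_smul {X : Type} [MulAction G X] (g : G) (e : X) : qq G (g • e) = qq G e :=
  qq_eq.2 ⟨g, rfl⟩

theorem qq_out {X : Type} [MulAction G X] (c : Q G X) : qq G c.out = c := Quotient.out_eq c

/-- orbits of edges -/
def OO (G : Type) [Group G] [MulAction G V] (Γ : SimpleGraph V) : Set (Q G (Sym2 V)) :=
  qq G '' Γ.edgeSet

variable (hT : Γ.IsTree) (adj : ∀ (g : G) u v, Γ.Adj u v → Γ.Adj (g • u) (g • v))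
  (free : ∀ (g : G) (v : V), g • v = v → g = 1)

include free in
theorem card_deg (deg : ∀ v, 3 ≤ (Γ.neighborSet v).encard) [Finite (OO G Γ)] :
    Finite (Q G V) ∧ Nat.card (Q G V) * 3 ≤ Nat.card (OO G Γ) * 2 := by
  classical
  have h1 : ∀ v, ∃ nb : Fin 3 → V, Function.Injective nb ∧ ∀ i, Γ.Adj v (nb i) := by
    intro v
    obtain ⟨t, ht, h3⟩ := Set.exists_subset_encard_eq (deg v)
    obtain ⟨a, b, c, hab, hac, hbc, rfl⟩ := Set.encard_eq_three.1 h3
    refine ⟨![a, b, c], ?_, ?_⟩
    · intro i j h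
      fin_cases i <;> fin_cases j <;> simp_all
    · intro i
      fin_cases i
      · exact ht (by simp)
      · exact ht (by simp)
      · exact ht (by simp)
  choose nb hnb hnb2 using h1
  have h2 : ∀ o : Q G (Sym2 V), ∃ a b : V, qq G s(a, b) = o := by
    intro o
    have := qq_out o
    induction h : o.out using Sym2.ind with
    | _ a b => exact ⟨a, b, h ▸ this⟩
  choose A B hAB using h2
  let F : Q G V × Fin 3 → OO G Γ × Bool := fun p =>
    (⟨qq G s(p.1.out, nb p.1.out p.2), ⟨_, hnb2 _ _, rfl⟩⟩,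
      decide (∃ g : G, g • A (qq G s(p.1.out, nb p.1.out p.2)) = p.1.out ∧
        g • B (qq G s(p.1.out, nb p.1.out p.2)) = nb p.1.out p.2))
  have hF : Function.Injective F := by
    rintro ⟨c, i⟩ ⟨d, j⟩ h
    have e1 : qq G s(c.out, nb c.out i) = qq G s(d.out, nb d.out j) :=
      congrArg Subtype.val (congrArg Prod.fst h)
    have e2 := decide_eq_decide.1 (congrArg Prod.snd h)
    simp only at e2
    rw [e1] at e2
    set o := qq G s(d.out, nb d.out j) with ho
    have key : ∃ k : G, k • c.out = d.out ∧ k • nb c.out i = nb d.out j := by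
      by_cases hh : ∃ g : G, g • A o = d.out ∧ g • B o = nb d.out j
      · obtain ⟨g, g1, g2⟩ := e2.2 hh
        obtain ⟨g', g3, g4⟩ := hh
        exact ⟨g' * g⁻¹, by rw [← g1, ← g3]; simp [mul_smul], by rw [← g2, ← g4]; simp [mul_smul]⟩
      · obtain ⟨g, g1⟩ := qq_eq.1 (e1.trans (hAB o).symm)
        obtain ⟨g', g2⟩ := qq_eq.1 (ho.symm.trans (hAB o).symm)
        rw [s2_smul] at g1 g2
        rcases Sym2.eq_iff.1 g1 with g1 | ⟨g1, g3⟩
        · exact absurd (e2.1 ⟨g, g1⟩) hh
        rcases Sym2.eq_iff.1 g2 with g2 | ⟨g2, g4⟩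
        · exact absurd ⟨g', g2⟩ hh
        exact ⟨g' * g⁻¹, by rw [← g3, ← g4]; simp [mul_smul], by rw [← g1, ← g2]; simp [mul_smul]⟩
    obtain ⟨k, k1, k2⟩ := key
    have hcd : c = d := by rw [← qq_out c, ← qq_out d, ← k1, qq_smul]
    subst hcd
    rw [free k _ k1, one_smul] at k2
    rw [hnb _ k2]
  have hfin : Finite (Q G V × Fin 3) := Finite.of_injective F hF
  refine ⟨Finite.prod_left (Fin 3), ?_⟩
  simpa using Nat.card_le_card_of_injective F hF

end

section
variable {N : ℕ} {V : Type} [MulAction (FreeGroup (Fin N)) V] {Γ : SimpleGraph V}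
  (hT : Γ.IsTree) (adj : ∀ (g : FreeGroup (Fin N)) u v, Γ.Adj u v → Γ.Adj (g • u) (g • v))

include hT adj in
theorem card_hom [Finite (OO (FreeGroup (Fin N)) Γ)] [Finite (Q (FreeGroup (Fin N)) V)] :
    Nat.card (OO (FreeGroup (Fin N)) Γ) ≤ N + Nat.card (Q (FreeGroup (Fin N)) V) := by
  classical
  obtain ⟨x⟩ := hT.connected.nonempty
  let ext : (OO (FreeGroup (Fin N)) Γ → ZMod 2) → Sym2 V → ZMod 2 := fun φ e =>
    if h : qq (FreeGroup (Fin N)) e ∈ OO (FreeGroup (Fin N)) Γ then φ ⟨_, h⟩ else 0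
  have hext : ∀ φ (g : FreeGroup (Fin N)), ∀ e ∈ Γ.edgeSet, ext φ (g • e) = ext φ e := by
    intro φ g e _
    simp only [ext, qq_smul]
  let J : (OO (FreeGroup (Fin N)) Γ → ZMod 2) → V → ZMod 2 := fun φ v => ∑ e ∈ E hT x v, ext φ e
  have hJ : ∀ φ (g : FreeGroup (Fin N)) v, J φ (g • v) = J φ (g • x) + J φ v := by
    intro φ g v
    simp only [J]
    rw [z2_add hT _ x (g • x) (g • v), sum_smul hT adj (hext φ)]
  let Φ : (OO (FreeGroup (Fin N)) Γ → ZMod 2) →
      (Fin N → ZMod 2) × (Q (FreeGroup (Fin N)) V → ZMod 2) :=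
    fun φ => (fun j => J φ (FreeGroup.of j • x), fun c => J φ c.out)
  have hΦ : Function.Injective Φ := by
    intro φ ψ h
    have h1 : ∀ j, J φ (FreeGroup.of j • x) = J ψ (FreeGroup.of j • x) :=
      fun j => congrFun (congrArg Prod.fst h) j
    have h2 : ∀ c : Q (FreeGroup (Fin N)) V, J φ c.out = J ψ c.out :=
      fun c => congrFun (congrArg Prod.snd h) c
    have h0 : ∀ φ, J φ x = 0 := fun φ =>
      Finset.sum_eq_zero (fun e he => absurd he (E_self hT x e))
    have h3 : ∀ g : FreeGroup (Fin N), J φ (g • x) = J ψ (g • x) := by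
      intro g
      have := const_of (Z := fun g => J φ (g • x) = J ψ (g • x)) (fun g j => by
        rw [mul_smul, hJ φ g, hJ ψ g, h1 j, add_left_inj]) g 1
      rw [one_mul, one_smul, h0, h0] at this
      exact this.2 rfl
    have h4 : ∀ v, J φ v = J ψ v := by
      intro v
      obtain ⟨g, hg⟩ := qq_eq.1 (qq_out (qq (FreeGroup (Fin N)) v)).symm
      rw [← hg, hJ φ, hJ ψ, h3, h2]
    funext ⟨o, e, he, ho⟩
    subst ho
    induction e using Sym2.ind with
    | _ a b =>
      have f : ∀ φ, J φ b = J φ a + φ ⟨_, s(a, b), he, rfl⟩ := by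
        intro φ
        simp only [J]
        rw [z2_add hT _ x a b]
        have : E hT a b = {s(a, b)} := by
          ext e; rw [E_adj hT he]; simp
        rw [this, Finset.sum_singleton]
        simp only [ext]
        rw [dif_pos ⟨s(a, b), he, rfl⟩]
      have f1 := f φ
      have f2 := f ψ
      rw [h4, h4, f2] at f1
      exact (add_left_cancel f1).symm
  have := Nat.card_le_card_of_injective Φ hΦ
  rw [Nat.card_prod, Nat.card_fun, Nat.card_fun, Nat.card_fun, Nat.card_zmod, Nat.card_fin,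
    ← pow_add] at this
  exact (Nat.pow_le_pow_iff_right (by norm_num)).1 this

include hT adj in
theorem tl_span (free : ∀ (g : FreeGroup (Fin N)) (v : V), g • v = v → g = 1)
    (deg : ∀ v, 3 ≤ (Γ.neighborSet v).encard)
    (cof : ∃ s : Set (V × V), s.Finite ∧
      ∀ u v, Γ.Adj u v → ∃ g : FreeGroup (Fin N), (g • u, g • v) ∈ s)
    (len : Sym2 V → ℝ) (pos : ∀ e ∈ Γ.edgeSet, 0 < len e)
    (inv : ∀ (g : FreeGroup (Fin N)) u v, Γ.Adj u v → len s(g • u, g • v) = len s(u, v)) :
    ∃ s : Finset (FreeGroup (Fin N) → ℝ), (s : Set _) ⊆ Fam (FreeGroup (Fin N)) ∧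
      s.card ≤ 3 * N ∧ (fun g : FreeGroup (Fin N) => ⨅ y : V, dl hT len y (g • y)) ∈
        Submodule.span ℝ (s : Set (FreeGroup (Fin N) → ℝ)) := by
  classical
  obtain ⟨x⟩ := hT.connected.nonempty
  have inv' : ∀ (g : FreeGroup (Fin N)), ∀ e ∈ Γ.edgeSet, len (g • e) = len e := by
    intro g e he
    induction e using Sym2.ind with
    | _ a b => exact inv g a b he
  have hfin : (OO (FreeGroup (Fin N)) Γ).Finite := by
    obtain ⟨s, hs, h⟩ := cof
    refine (hs.image (fun p => qq (FreeGroup (Fin N)) s(p.1, p.2))).subset ?_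
    rintro _ ⟨e, he, rfl⟩
    induction e using Sym2.ind with
    | _ a b =>
      obtain ⟨g, hg⟩ := h a b he
      exact ⟨_, hg, qq_smul g s(a, b)⟩
  have : Finite (OO (FreeGroup (Fin N)) Γ) := hfin
  obtain ⟨hV, hc1⟩ := card_deg free deg
  have hc2 := card_hom hT adj
  let _ : Fintype (OO (FreeGroup (Fin N)) Γ) := Fintype.ofFinite _
  have hrep : ∀ o : OO (FreeGroup (Fin N)) Γ, ∃ e ∈ Γ.edgeSet, qq (FreeGroup (Fin N)) e = o :=
    fun o => o.2
  choose rep hr1 hr2 using hrep
  let χ : OO (FreeGroup (Fin N)) Γ → FreeGroup (Fin N) → Prop := fun o h => rep o ∈ E hT x (h • x)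
  let ind : OO (FreeGroup (Fin N)) Γ → Sym2 V → ℝ := fun o e =>
    if qq (FreeGroup (Fin N)) e = o then 1 else 0
  have hinj : ∀ o, Function.Injective (fun k : FreeGroup (Fin N) => k⁻¹ • rep o) := by
    intro o k l h
    have : (l * k⁻¹) • rep o = rep o := by
      simp only at h
      rw [mul_smul, h, smul_inv_smul]
    exact (mul_inv_eq_one.1 (edge_free free this)).symm
  have himg : ∀ o g, (fun k : FreeGroup (Fin N) => k⁻¹ • rep o) '' sep (χ o) 1 g =
      ↑((E hT x (g • x)).filter (fun e => qq (FreeGroup (Fin N)) e = o)) := by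
    intro o g
    have hk : ∀ k, k ∈ sep (χ o) 1 g ↔ k⁻¹ • rep o ∈ E hT x (g • x) := by
      intro k
      rw [← E_smul hT adj k, smul_inv_smul]
      have a1 := E_tri hT (k • x) x (k • g • x) (rep o)
      have a2 := E_comm hT (k • x) x (rep o)
      simp only [sep, χ, Set.mem_ofPred_eq, mul_one, mul_smul]
      grind
    ext e
    simp only [Set.mem_image, Finset.coe_filter, Set.mem_ofPred_eq]
    constructor
    · rintro ⟨k, h, rfl⟩
      exact ⟨(hk k).1 h, by rw [qq_smul, hr2]⟩
    · rintro ⟨h1, h2⟩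
      obtain ⟨k, rfl⟩ := qq_eq.1 (h2.trans (hr2 o).symm)
      exact ⟨k⁻¹, (hk _).2 (by simpa using h1), by simp⟩
  have hsf : ∀ o g, (sep (χ o) 1 g).Finite := by
    intro o g
    apply Set.Finite.of_finite_image _ (hinj o).injOn
    rw [himg]; exact Finset.finite_toSet _
  have hnc : ∀ o g, ((sep (χ o) 1 g).ncard : ℝ) = dl hT (ind o) x (g • x) := by
    intro o g
    rw [← Set.ncard_image_of_injective _ (hinj o), himg, Set.ncard_coe_finset]
    simp only [dl, ind, Finset.sum_boole]
  refine ⟨Finset.univ.image (fun o => fc (χ o)), ?_, ?_, ?_⟩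
  · intro f hf
    simp only [Finset.coe_image, Set.mem_image] at hf
    obtain ⟨o, -, rfl⟩ := hf
    exact ⟨χ o, hsf o, rfl⟩
  · refine Finset.card_image_le.trans ?_
    rw [Finset.card_univ, ← Nat.card_eq_fintype_card]
    omega
  · have : (fun g : FreeGroup (Fin N) => ⨅ y : V, dl hT len y (g • y)) =
        ∑ o, len (rep o) • fc (χ o) := by
      funext g
      obtain ⟨v, hv⟩ := axis_dl hT adj free g
      rw [(hv len inv' (fun e he => (pos e he).le)).1, Finset.sum_apply]
      have e1 : ∀ o, fc (χ o) g = dl hT (ind o) v (g • v) := by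
        intro o
        unfold fc
        simp only [hnc]
        refine ((hv (ind o) ?_ ?_).2 x).limUnder_eq
        · intro k e _
          simp only [ind, qq_smul]
        · intro e _
          simp only [ind]
          split_ifs <;> norm_num
      simp only [Pi.smul_apply, smul_eq_mul, e1, dl, Finset.mul_sum]
      rw [Finset.sum_comm]
      apply Finset.sum_congr rfl
      intro e he
      have he' := E_edge hT he
      rw [Finset.sum_eq_single ⟨_, e, he', rfl⟩]
      · obtain ⟨k, hk⟩ := qq_eq.1 (hr2 ⟨_, e, he', rfl⟩)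
        simp only [ind, if_true, mul_one]
        rw [← hk, inv' k e he']
      · intro o _ ho
        have : qq (FreeGroup (Fin N)) e ≠ o := fun h => ho (Subtype.ext h.symm)
        simp [ind, this]
      · simp
    rw [this]
    refine Submodule.sum_mem _ (fun o _ => Submodule.smul_mem _ _ (Submodule.subset_span ?_))
    simp

end

end Pool.Agent.H.MP_f2f7de_al
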